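import Pool.Agent.N463.MI.Stm

/-!
# MI/B04: numerical bounds for the constants
-/

set_option autoImplicit false

namespace Pool.Agent.N833.MI

open Pool.Agent.N463.MI
open intervalIntegral MeasureTheory

theorem cont_f : Continuous fun v : ℝ => Real.log (1 + Real.exp (-v)) :=
  Continuous.log (by fun_prop) fun v => by positivity

/-- the tangent inequality -/
theorem tangent (m v : ℝ) : Real.log (1 + Real.exp (-m)) -
    Real.exp (-m) / (1 + Real.exp (-m)) * (v - m) ≤ Real.log (1 + Real.exp (-v)) := by
  set u := Real.exp (-m) with hu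
  have hu0 : 0 < u := Real.exp_pos _
  set p := u / (1 + u) with hp
  have hp0 : 0 ≤ p := by positivity
  have hp1 : p ≤ 1 := by
    rw [hp, div_le_one (by positivity)]
    linarith
  have h1 : Real.exp (p * (-(v - m))) ≤ (1 - p) * 1 + p * Real.exp (-(v - m)) := by
    have := convexOn_exp.2 (Set.mem_univ (0 : ℝ)) (Set.mem_univ (-(v - m)))
      (show 0 ≤ 1 - p by linarith) hp0 (by ring)
    simpa using this
  have h2 : (1 + u) * ((1 - p) * 1 + p * Real.exp (-(v - m))) = 1 + Real.exp (-v) := by
    have h3 : u * Real.exp (-(v - m)) = Real.exp (-v) := by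
      rw [hu, ← Real.exp_add]
      congr 1
      ring
    have h4 : (1 + u) * p = u := by
      rw [hp]
      field_simp
    calc (1 + u) * ((1 - p) * 1 + p * Real.exp (-(v - m)))
        = (1 + u) - (1 + u) * p + (1 + u) * p * Real.exp (-(v - m)) := by ring
      _ = 1 + u * Real.exp (-(v - m)) := by rw [h4]; ring
      _ = 1 + Real.exp (-v) := by rw [h3]
  have h5 : (1 + u) * Real.exp (p * (-(v - m))) ≤ 1 + Real.exp (-v) := by
    rw [← h2]
    exact mul_le_mul_of_nonneg_left h1 (by positivity)
  have h6 := Real.log_le_log (by positivity) h5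
  rw [Real.log_mul (by positivity) (by positivity), Real.log_exp] at h6
  linarith

/-- the midpoint rule is a lower bound -/
theorem low {x y : ℝ} (h : x ≤ y) : (y - x) * Real.log (1 + Real.exp (-((x + y) / 2))) ≤
    ∫ v in x..y, Real.log (1 + Real.exp (-v)) := by
  set m := (x + y) / 2 with hm
  have h1 : ∫ v in x..y, (Real.log (1 + Real.exp (-m)) -
      Real.exp (-m) / (1 + Real.exp (-m)) * (v - m)) = (y - x) * Real.log (1 + Real.exp (-m)) := by
    rw [intervalIntegral.integral_sub (by simp) (Continuous.intervalIntegrable (by fun_prop) _ _),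
      intervalIntegral.integral_const, intervalIntegral.integral_const_mul,
      intervalIntegral.integral_sub (Continuous.intervalIntegrable (by fun_prop) _ _) (by simp),
      integral_id, intervalIntegral.integral_const, smul_eq_mul, smul_eq_mul, hm]
    ring
  rw [← h1]
  exact intervalIntegral.integral_mono_on h (Continuous.intervalIntegrable (by fun_prop) _ _)
    (cont_f.intervalIntegrable _ _) fun v _ => tangent m v

/-- the upper bound -/
theorem up {L w : ℝ} (hL : 0 ≤ L) (hw : 0 < 1 + w) :
    ∫ v in (0 : ℝ)..L, Real.log (1 + Real.exp (-v)) ≤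
      L * Real.log (1 + w) + ((1 - Real.exp (-L)) - L * w) / (1 + w) := by
  have h1 : ∫ v in (0 : ℝ)..L, (Real.log (1 + w) + (Real.exp (-v) - w) / (1 + w)) =
      L * Real.log (1 + w) + ((1 - Real.exp (-L)) - L * w) / (1 + w) := by
    have h2 : ∫ v in (0 : ℝ)..L, Real.exp (-v) = 1 - Real.exp (-L) := by
      rw [intervalIntegral.integral_comp_neg (fun v => Real.exp v), integral_exp]
      simp
    rw [intervalIntegral.integral_add (by simp) (Continuous.intervalIntegrable (by fun_prop) _ _),
      intervalIntegral.integral_const, intervalIntegral.integral_div,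
      intervalIntegral.integral_sub (Continuous.intervalIntegrable (by fun_prop) _ _) (by simp),
      h2, intervalIntegral.integral_const, smul_eq_mul, smul_eq_mul]
    ring
  rw [← h1]
  refine intervalIntegral.integral_mono_on hL (cont_f.intervalIntegrable _ _)
    (Continuous.intervalIntegrable (by fun_prop) _ _) fun v _ => ?_
  have h2 : 0 < 1 + Real.exp (-v) := by positivity
  have h3 := Real.log_le_sub_one_of_pos (div_pos h2 hw)
  rw [Real.log_div h2.ne' hw.ne'] at h3
  have h4 : (1 + Real.exp (-v)) / (1 + w) - 1 = (Real.exp (-v) - w) / (1 + w) := by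
    field_simp
    ring
  linarith

/-- upper bounds for the exponential -/
theorem le_log {x c : ℝ} (h0 : 0 ≤ c) (h1 : c ≤ 1) (hx : 0 < x)
    (h : ∑ m ∈ Finset.range 8, c ^ m / (m.factorial : ℝ) + c ^ 8 * (8 + 1) /
      ((Nat.factorial 8 : ℝ) * 8) ≤ x) : c ≤ Real.log x := by
  rw [Real.le_log_iff_exp_le hx]
  have := Real.exp_bound' h0 h1 (n := 8) (by norm_num)
  push_cast at this
  exact this.trans h

/-- lower bounds for the exponential -/
theorem log_le {x c : ℝ} (h0 : 0 ≤ c) (hx : 0 < x)
    (h : x ≤ ∑ m ∈ Finset.range 8, c ^ m / (m.factorial : ℝ)) : Real.log x ≤ c := by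
  rw [Real.log_le_iff_le_exp hx]
  exact h.trans (Real.sum_le_exp_of_nonneg h0 8)

theorem log3 : 1.098547 ≤ Real.log 3 ∧ Real.log 3 ≤ 1.098648 := by
  have h1 : Real.log 3 = Real.log 2 + Real.log 1.5 := by
    rw [← Real.log_mul (by norm_num) (by norm_num)]
    norm_num
  have h2 : (0.4054 : ℝ) ≤ Real.log 1.5 := le_log (by norm_num) (by norm_num) (by norm_num)
    (by norm_num [Finset.sum_range_succ, Nat.factorial])
  have h3 : Real.log 1.5 ≤ (0.4055 : ℝ) := log_le (by norm_num) (by norm_num)
    (by norm_num [Finset.sum_range_succ, Nat.factorial])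
  have h4 := Real.log_two_gt_d9
  have h5 := Real.log_two_lt_d9
  constructor
  · rw [h1]
    linarith
  · rw [h1]
    linarith

theorem t_B04 : B04 := by
  have h2a := Real.log_two_gt_d9
  have h2b := Real.log_two_lt_d9
  obtain ⟨h3a, h3b⟩ := log3
  have e2 : Real.exp (-Real.log 2) = 1 / 2 := by
    rw [Real.exp_neg, Real.exp_log (by norm_num)]
    norm_num
  have e3 : Real.exp (-Real.log 3) = 1 / 3 := by
    rw [Real.exp_neg, Real.exp_log (by norm_num)]
    norm_num
  refine ⟨?_, ?_, ?_, ?_⟩
  · rw [cst]
    have h1 := low (show (0 : ℝ) ≤ Real.log 2 by linarith)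
    rw [sub_zero, zero_add] at h1
    have h2 : (0.7071 : ℝ) ≤ Real.exp (-(Real.log 2 / 2)) := by
      have h3 : Real.exp (-(Real.log 2 / 2)) ^ 2 = 1 / 2 := by
        rw [← Real.exp_nat_mul, ← e2]
        congr 1
        push_cast
        ring
      have h4 := Real.exp_pos (-(Real.log 2 / 2))
      nlinarith
    have h3 : (0.53467 : ℝ) ≤ Real.log (1 + Real.exp (-(Real.log 2 / 2))) :=
      (le_log (x := 1.7071) (by norm_num) (by norm_num) (by norm_num)
        (by norm_num [Finset.sum_range_succ, Nat.factorial])).trans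
        (Real.log_le_log (by norm_num) (by linarith))
    nlinarith
  · rw [cst]
    have h1 := up (L := Real.log 2) (w := 0.72) (by linarith) (by norm_num)
    rw [e2] at h1
    have h2 : Real.log (1 + 0.72) ≤ 0.545 := log_le (by norm_num) (by norm_num)
      (by norm_num [Finset.sum_range_succ, Nat.factorial])
    have h3 : (Real.log 2) ^ 2 ≤ 0.6931471808 ^ 2 := by nlinarith
    have h4 : Real.log 2 * Real.log (1 + 0.72) ≤ 0.6931471808 * 0.545 := by nlinarith
    have h5 : (1 - 1 / 2 - Real.log 2 * 0.72) / (1 + 0.72) ≤ 0.00055 := by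
      rw [div_le_iff₀ (by norm_num)]
      nlinarith
    nlinarith
  · rw [cst]
    have hadd := intervalIntegral.integral_add_adjacent_intervals
      (cont_f.intervalIntegrable 0 (Real.log 3 / 2)) (cont_f.intervalIntegrable (Real.log 3 / 2) (Real.log 3))
      (μ := volume)
    have h1 := low (show (0 : ℝ) ≤ Real.log 3 / 2 by linarith)
    have h2 := low (show Real.log 3 / 2 ≤ Real.log 3 by linarith)
    have g1 : (0.7598 : ℝ) ≤ Real.exp (-((0 + Real.log 3 / 2) / 2)) := by
      have h3 : Real.exp (-((0 + Real.log 3 / 2) / 2)) ^ 4 = 1 / 3 := by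
        rw [← Real.exp_nat_mul, ← e3]
        congr 1
        push_cast
        ring
      by_contra hcon
      push Not at hcon
      have h4 := Real.exp_pos (-((0 + Real.log 3 / 2) / 2))
      have h5 := pow_lt_pow_left₀ hcon h4.le (n := 4) (by norm_num)
      rw [h3] at h5
      norm_num at h5
    have g2 : (0.4386 : ℝ) ≤ Real.exp (-((Real.log 3 / 2 + Real.log 3) / 2)) := by
      have h3 : Real.exp (-((Real.log 3 / 2 + Real.log 3) / 2)) ^ 4 = 1 / 27 := by
        have : (1 : ℝ) / 27 = Real.exp (-Real.log 3) ^ 3 := by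
          rw [e3]
          norm_num
        rw [this, ← Real.exp_nat_mul, ← Real.exp_nat_mul]
        congr 1
        push_cast
        ring
      by_contra hcon
      push Not at hcon
      have h4 := Real.exp_pos (-((Real.log 3 / 2 + Real.log 3) / 2))
      have h5 := pow_lt_pow_left₀ hcon h4.le (n := 4) (by norm_num)
      rw [h3] at h5
      norm_num at h5
    have k1 : (0.5651 : ℝ) ≤ Real.log (1 + Real.exp (-((0 + Real.log 3 / 2) / 2))) :=
      (le_log (x := 1.7598) (by norm_num) (by norm_num) (by norm_num)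
        (by norm_num [Finset.sum_range_succ, Nat.factorial])).trans
        (Real.log_le_log (by norm_num) (by linarith))
    have k2 : (0.3636 : ℝ) ≤ Real.log (1 + Real.exp (-((Real.log 3 / 2 + Real.log 3) / 2))) :=
      (le_log (x := 1.4386) (by norm_num) (by norm_num) (by norm_num)
        (by norm_num [Finset.sum_range_succ, Nat.factorial])).trans
        (Real.log_le_log (by norm_num) (by linarith))
    rw [← hadd]
    have m1 : Real.log 3 / 2 * 0.5651 ≤ (Real.log 3 / 2 - 0) *
        Real.log (1 + Real.exp (-((0 + Real.log 3 / 2) / 2))) := by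
      rw [sub_zero]
      exact mul_le_mul_of_nonneg_left k1 (by linarith)
    have m2 : Real.log 3 / 2 * 0.3636 ≤ (Real.log 3 - Real.log 3 / 2) *
        Real.log (1 + Real.exp (-((Real.log 3 / 2 + Real.log 3) / 2))) := by
      rw [show Real.log 3 - Real.log 3 / 2 = Real.log 3 / 2 by ring]
      exact mul_le_mul_of_nonneg_left k2 (by linarith)
    linarith
  · rw [cst]
    have h1 := up (L := Real.log 3) (w := 0.6) (by linarith) (by norm_num)
    rw [e3] at h1
    have h2 : Real.log (1 + 0.6) ≤ 0.472 := log_le (by norm_num) (by norm_num)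
      (by norm_num [Finset.sum_range_succ, Nat.factorial])
    have h3 : (Real.log 3) ^ 2 ≤ 1.098648 ^ 2 := by nlinarith
    have h4 : Real.log 3 * Real.log (1 + 0.6) ≤ 1.098648 * 0.472 := by nlinarith
    have h5 : (1 - 1 / 3 - Real.log 3 * 0.6) / (1 + 0.6) ≤ 0.00473 := by
      rw [div_le_iff₀ (by norm_num)]
      nlinarith
    nlinarith

end Pool.Agent.N833.MI
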